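import Pool.Agent.J6H9.EW.Stm

set_option autoImplicit false

/-! Module EW-ST1 of the project EW (helper9, MP_f6e960_lc), proved by helper18 -/

namespace Pool.Agent.J6H18.EW

open Filter Topology Pool.Agent.J6H9.EU Pool.Agent.J6H9.EV Pool.Agent.J6H9.EW

/-- **EW-ST1** -/
theorem main : Pool.Agent.J6H9.EW.S_ST1 := by
  classical
  intro f hf hanti _ hlim ψ hU LQ HQ LP HP q p hH r
  have hδ : (0 : ℝ) < (1 / 2) ^ (r + 3) := by positivity
  obtain ⟨ε, hε, M, hM⟩ := hU _ hδ
  have hFmono : Monotone (F f) := by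
    intro a b hab
    exact Finset.sum_le_sum_of_subset_of_nonneg (Finset.range_mono hab) fun i _ _ => (hf i).le
  have hF0 : ∀ n, 0 ≤ F f n := fun n => Finset.sum_nonneg fun i _ => (hf i).le
  have hFpos : ∀ n, 0 < F f (n + 1) := fun n =>
    Finset.sum_pos (fun i _ => hf i) ⟨0, Finset.mem_range.2 (Nat.succ_pos n)⟩
  -- the choice of `c₀`
  have h1 : ∀ᶠ n : ℕ in atTop, (n : ℝ) * f n ≤ ε * F f (n + 1) := by
    filter_upwards [hlim.eventually (gt_mem_nhds hε)] with n hn
    exact ((div_lt_iff₀ (hFpos n)).1 hn).le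
  obtain ⟨n₀, hn₀⟩ := eventually_atTop.1 h1
  refine ⟨max n₀ M, fun c hc => ?_⟩
  have hpow : c < 2 ^ (c + 1) := lt_of_lt_of_le (Nat.lt_pow_self (by norm_num)) (Nat.pow_le_pow_right (by norm_num) (Nat.le_succ c))
  have hcn : n₀ ≤ 2 ^ (c + 1) := (le_max_left _ _).trans (hc.trans hpow.le)
  have hcM : M ≤ 2 ^ (c + 1) := (le_max_right _ _).trans (hc.trans hpow.le)
  by_contra hcon
  push Not at hcon
  obtain ⟨C, hCsub, hCcard⟩ := Finset.exists_subset_card_eq
    (show 2 ^ c ≤ (HQ (c + r)).card by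
      rw [hH.chq]
      exact Nat.pow_le_pow_right (by norm_num) (Nat.le_add_right c r))
  have hlow : ∀ x ∈ LP c, 2 ^ (c + 1) ≤ x := fun x hx => (Finset.mem_Ico.1 (hH.lp c hx)).1
  have hClow : ∀ x ∈ C, 2 ^ (c + 1) ≤ x := by
    intro x hx
    have h2 := (Finset.mem_Ico.1 (hH.hq (c + r) (hCsub hx))).1
    exact (Nat.pow_le_pow_right (by norm_num) (by omega)).trans h2
  have hsmall : Small f ε ∅ (LP c) := by
    constructor
    · intro N
      rw [Finset.filter_empty, Finset.card_empty, Nat.cast_zero]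
      positivity
    · intro N
      by_cases hN : N ≤ 2 ^ (c + 1)
      · rw [Finset.sum_eq_zero]
        · exact mul_nonneg hε.le (hF0 N)
        · intro j hj
          obtain ⟨hj1, hj2⟩ := Finset.mem_filter.1 hj
          exact absurd (hlow j hj1) (by omega)
      · push Not at hN
        have h2 : ∑ j ∈ (LP c).filter (· < N), f j ≤ ((2 ^ (c + 1) : ℕ) : ℝ) * f (2 ^ (c + 1)) := by
          calc ∑ j ∈ (LP c).filter (· < N), f j ≤ ∑ j ∈ LP c, f j :=
                Finset.sum_le_sum_of_subset_of_nonneg (Finset.filter_subset _ _) fun i _ _ => (hf i).le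
            _ ≤ ∑ _j ∈ LP c, f (2 ^ (c + 1)) := Finset.sum_le_sum fun j hj => hanti (hlow j hj)
            _ = ((2 ^ c : ℕ) : ℝ) * f (2 ^ (c + 1)) := by
                rw [Finset.sum_const, hH.clp, nsmul_eq_mul]
            _ ≤ ((2 ^ (c + 1) : ℕ) : ℝ) * f (2 ^ (c + 1)) := by
                refine mul_le_mul_of_nonneg_right ?_ (hf _).le
                exact_mod_cast Nat.pow_le_pow_right (by norm_num) (Nat.le_succ c)
        refine h2.trans ((hn₀ _ hcn).trans ?_)
        exact mul_le_mul_of_nonneg_left (hFmono hN) hε.le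
  have hdom : Dom ψ ((∅ : Finset ℕ).disjSum (LP c)) (C.disjSum ∅) := by
    have hcard : C.card = (LP c).card := by rw [hCcard, hH.clp]
    obtain ⟨e⟩ : Nonempty (C ≃ LP c) := ⟨Finset.equivOfCardEq hcard⟩
    refine ⟨fun s => Sum.elim (fun x => if hx : x ∈ C then Sum.inr ((e ⟨x, hx⟩ : LP c) : ℕ) else Sum.inl 0)
      (fun _ => Sum.inl 0) s, ?_, ?_⟩
    · intro s hs t ht hst
      have hs' : s ∈ C.disjSum (∅ : Finset ℕ) := hs
      have ht' : t ∈ C.disjSum (∅ : Finset ℕ) := ht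
      rw [Finset.mem_disjSum] at hs' ht'
      rcases hs' with ⟨a, ha, rfl⟩ | ⟨a, ha, rfl⟩
      · rcases ht' with ⟨b, hb, rfl⟩ | ⟨b, hb, rfl⟩
        · simp only [Sum.elim_inl, dif_pos ha, dif_pos hb] at hst
          have h3 := e.injective (Subtype.ext (Sum.inr_injective hst))
          rw [show a = b from congrArg Subtype.val h3]
        · exact absurd hb (Finset.notMem_empty b)
      · exact absurd ha (Finset.notMem_empty a)
    · intro s hs
      rw [Finset.mem_disjSum] at hs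
      rcases hs with ⟨a, ha, rfl⟩ | ⟨a, ha, rfl⟩
      · simp only [Sum.elim_inl, dif_pos ha]
        have hmem : ((e ⟨a, ha⟩ : LP c) : ℕ) ∈ LP c := (e ⟨a, ha⟩).2
        refine ⟨Finset.mem_disjSum.2 (Or.inr ⟨_, hmem, rfl⟩), ?_⟩
        have h3 := hH.lpb c _ hmem
        have h4 := hH.hqb (c + r) a (hCsub ha)
        omega
      · exact absurd ha (Finset.notMem_empty a)
  have hfin := hM ∅ (LP c) C ∅ (fun x hx => absurd hx (Finset.notMem_empty x))
    (fun x hx => hcM.trans (hlow x hx)) (fun x hx => hcM.trans (hClow x hx))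
    (fun x hx => absurd hx (Finset.notMem_empty x)) hsmall hdom
  have h5 := hfin.1 (2 ^ (c + r + 2))
  have h6 : C.filter (· < 2 ^ (c + r + 2)) = C := by
    refine Finset.filter_true_of_mem fun x hx => ?_
    exact (Finset.mem_Ico.1 (hH.hq (c + r) (hCsub hx))).2
  rw [h6, hCcard] at h5
  push_cast at h5
  have h7 : ((1 : ℝ) / 2) ^ (r + 3) * 2 ^ (c + r + 2) = 2 ^ c / 2 := by
    have e1 : (2 : ℝ) ^ (c + r + 2) = 2 ^ c * 2 ^ (r + 2) := by rw [← pow_add, add_assoc]
    have e2 : ((1 : ℝ) / 2) ^ (r + 3) * 2 ^ (r + 2) = 1 / 2 := by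
      rw [pow_succ, mul_right_comm, ← mul_pow]
      norm_num
    rw [e1]
    calc ((1 : ℝ) / 2) ^ (r + 3) * (2 ^ c * 2 ^ (r + 2)) = (((1 : ℝ) / 2) ^ (r + 3) * 2 ^ (r + 2)) * 2 ^ c := by ring
      _ = 2 ^ c / 2 := by rw [e2]; ring
  rw [h7] at h5
  have h8 : (0 : ℝ) < 2 ^ c := by positivity
  linarith

end Pool.Agent.J6H18.EW
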